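import Pool.Agent.H33.HH.TA

/-!
# HalfOfAll, row CPM: uniform bounds of derivatives by compactness
-/

set_option autoImplicit false

open scoped ContDiff

namespace Pool.Agent.H52.HH

open Pool.Agent.H33.HH

theorem pf_CPM : T_CPM := by
  intro F S r hF hS h0 k
  have hc : Continuous (fun x => iteratedFDeriv ℝ k F x) :=
    hF.continuous_iteratedFDeriv (by exact_mod_cast le_top)
  obtain ⟨C, hC⟩ := (hS.prod (isCompact_closedBall (0 : ℂ) r)).exists_bound_of_continuousOn
    (f := fun x => iteratedFDeriv ℝ k F x) hc.continuousOn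
  refine ⟨max C 0, le_max_right _ _, ?_⟩
  intro p hp z
  by_cases hz : ‖z‖ ≤ r
  · have e : (fun z => F (p, z)) =
        (fun w => F ((p, (0 : ℂ)) + w)) ∘ (ContinuousLinearMap.inr ℝ (ℝ × ℝ) ℂ) := by
      funext z
      simp
    have hF' : ContDiff ℝ ∞ (fun w => F ((p, (0 : ℂ)) + w)) :=
      hF.comp (contDiff_const.add contDiff_id)
    rw [e, ContinuousLinearMap.iteratedFDeriv_comp_right _ hF' z (by exact_mod_cast le_top),
      iteratedFDeriv_comp_add_left]
    refine (ContinuousMultilinearMap.norm_compContinuousLinearMap_le _ _).trans ?_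
    have h1 : ‖iteratedFDeriv ℝ k F ((p, (0 : ℂ)) + ContinuousLinearMap.inr ℝ (ℝ × ℝ) ℂ z)‖ ≤ C := by
      have := hC (p, z) ⟨hp, by simpa using hz⟩
      simpa using this
    have h2 : ∏ _i : Fin k, ‖ContinuousLinearMap.inr ℝ (ℝ × ℝ) ℂ‖ ≤ 1 := by
      apply Finset.prod_le_one
      · intro i _; positivity
      · intro i _; exact ContinuousLinearMap.norm_inr_le_one ℝ _ _
    calc _ ≤ C * 1 := mul_le_mul h1 h2 (by positivity) ((norm_nonneg _).trans h1)
      _ ≤ max C 0 := by rw [mul_one]; exact le_max_left _ _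
  · have hz' : r < ‖z‖ := not_le.mp hz
    have e : (fun z => F (p, z)) =ᶠ[nhds z] (fun _ => (0 : ℝ)) := by
      filter_upwards [(isOpen_lt continuous_const continuous_norm).mem_nhds hz'] with w hw
      exact h0 p hp w hw
    have h3 : iteratedFDeriv ℝ k (fun z => F (p, z)) z = iteratedFDeriv ℝ k (fun _ : ℂ => (0:ℝ)) z :=
      (Filter.EventuallyEq.iteratedFDeriv ℝ e k).eq_of_nhds
    rw [h3]
    simp

end Pool.Agent.H52.HH
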